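import Pool.Agent.MP_36bee5_al.AslMain

set_option autoImplicit false

open MvPolynomial

/-- Let `R = K[x_a : a ∈ P] / J` be an algebra with straightening law on the finite poset `P` in
which every principal poset ideal is straightening closed. The ideals `I Ω` generated by the
lower sets `Ω` form a Koszul filtration, and every finite sum of products of `d` of them has a
`d`-linear free resolution over `R`. -/
theorem Pool.Agent.MP_36bee5_al.Old.AslProducts.result (K : Type) [Field K]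
    (P : Type) [Finite P] [PartialOrder P] (J : Ideal (MvPolynomial P K))
    (hind : LinearIndependent K fun l : {l : List P // l.Pairwise (· ≤ ·)} =>
      Ideal.Quotient.mk J (l.1.map X).prod)
    (hstr : ∀ a b : P, ¬ a ≤ b → ¬ b ≤ a → Ideal.Quotient.mk J (X a * X b) ∈ Submodule.span K
      {z : MvPolynomial P K ⧸ J | ∃ c c' : P, c ≤ c' ∧ c < a ∧ c < b ∧
        (∀ e, a ≤ e → b ≤ e → c' ≤ e) ∧ z = Ideal.Quotient.mk J (X c * X c')})
    (I : Set P → Ideal (MvPolynomial P K ⧸ J))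
    (hI : ∀ Ω, I Ω = Ideal.span {y | ∃ a ∈ Ω, Ideal.Quotient.mk J (X a) = y}) :
    (∀ Ω, IsLowerSet Ω → ∀ a, Maximal (· ∈ Ω) a →
      ∀ r, r ∈ I {e | ¬ a ≤ e} ↔ ∀ y ∈ I Ω, r * y ∈ I (Ω \ {a})) ∧
    ∀ (d s : ℕ) (Ω : Fin s → Fin d → Set P), (∀ i k, IsLowerSet (Ω i k)) →
      ∃ (b : ℕ → ℕ) (g : Fin (b 0) → MvPolynomial P K ⧸ J)
        (A : (i : ℕ) → Matrix (Fin (b i)) (Fin (b (i + 1))) (MvPolynomial P K ⧸ J)),
        (∀ j, ∃ p : MvPolynomial P K, p.IsHomogeneous d ∧ Ideal.Quotient.mk J p = g j) ∧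
        (∀ i a c, ∃ p : MvPolynomial P K, p.IsHomogeneous 1 ∧ Ideal.Quotient.mk J p = A i a c) ∧
        Ideal.span (Set.range g) = ∑ i, ∏ k, I (Ω i k) ∧
        (∀ v : Fin (b 0) → MvPolynomial P K ⧸ J,
          ∑ j, v j * g j = 0 ↔ ∃ w, (A 0).mulVec w = v) ∧
        (∀ (i : ℕ) (v : Fin (b (i + 1)) → MvPolynomial P K ⧸ J),
          (A i).mulVec v = 0 ↔ ∃ w, (A (i + 1)).mulVec w = v) := by
  open Pool.Agent.MP_36bee5_al.Asl in
  obtain rfl : I = fun Ω => Ideal.span (xx J '' Ω) := funext hI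
  open Pool.Agent.MP_36bee5_al.Asl in
  have hs : Str K (xx J) := fun a b hab hba => by
    simpa only [map_mul] using hstr a b hab hba
  open Pool.Agent.MP_36bee5_al.Asl in
  have hli : LinearIndependent K fun l : SL P => mon (xx J) l.1 := by
    simpa only [mon_xx] using hind
  open Pool.Agent.MP_36bee5_al.Asl in
  have hb : ∀ l, Module.Basis.mk hli (span_std J hs) l = mon (xx J) l.1 :=
    fun l => Module.Basis.mk_apply _ _ l
  open Pool.Agent.MP_36bee5_al.Asl in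
  refine ⟨fun Ω hΩ a ha r => colon_max hs hb Ω hΩ a ha r, fun d s Ω hΩ => ?_⟩
  open Pool.Agent.MP_36bee5_al.Asl in
  obtain ⟨c, g, A, h1, h2, h3, h4, h5⟩ := resolution hs hb
    {β : Fin d → P | ∃ i, ∀ k, β k ∈ Ω i k}
    (fun u v hvu ⟨i, hi⟩ => ⟨i, fun k => hΩ i k (hvu k) (hi k)⟩)
  open Pool.Agent.MP_36bee5_al.Asl in
  exact ⟨c, g, A, fun j => hom_of_Std J (h1 j), fun i a e => hom_of_Std J (h2 i a e),
    h3.trans (sum_prod_span _ Ω).symm, h4, h5⟩
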